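import Mathlib
import Pool.Agent.Helper7_VM.Final

/-!
# Weyl sums of arbitrary real polynomials: denominators up to `N ^ (k - 1)`

From the theorem for `q ≤ N` (`H7.fng_fin`) and the theorem for leading coefficients which are far
from the rational numbers with small denominators (`H7.blfar_fin`).
-/

set_option autoImplicit false

namespace Pool.Agent.VM.H49GP

open Pool.Agent.VM

/-- a number with an approximation of denominator between `N` and `N ^ (k - 1)` is far from the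
rational numbers with small denominators -/
theorem far_of (k N q : ℕ) (a : ℤ) (t : ℝ) (hk : 1 ≤ k) (hN : 1 ≤ N) (hq : N ≤ q)
    (hqk : q ≤ N ^ (k - 1)) (ht : |t - (a : ℝ) / (q : ℝ)| ≤ 1 / (q : ℝ) ^ 2)
    (hco : Int.gcd a q = 1) : Far k N t := by
  intro b u hu hbu
  have hq1 : 1 ≤ q := le_trans hN hq
  have hq0 : (0 : ℝ) < (q : ℝ) := by exact_mod_cast hq1
  have hu0 : (0 : ℝ) < (u : ℝ) := by exact_mod_cast hu
  have hN0 : (0 : ℝ) < (N : ℝ) := by exact_mod_cast hN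
  have hNq : (N : ℝ) ≤ (q : ℝ) := by exact_mod_cast hq
  have habs : 0 ≤ |t - (b : ℝ) / (u : ℝ)| := abs_nonneg _
  have hNk : (0 : ℝ) < (N : ℝ) ^ k := by positivity
  have hbase : (u : ℝ) ≤ (u : ℝ) * (1 + (N : ℝ) ^ k * |t - (b : ℝ) / (u : ℝ)|) := by
    have : 0 ≤ (u : ℝ) * ((N : ℝ) ^ k * |t - (b : ℝ) / (u : ℝ)|) := by positivity
    nlinarith
  by_cases hlt : (q : ℝ) / 2 ≤ (u : ℝ)
  · linarith
  push Not at hlt
  -- `u < q / 2`, so `b / u ≠ a / q`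
  have hne : (a : ℤ) * u - b * q ≠ 0 := by
    intro h0
    have h1 : (q : ℤ) ∣ a * u := ⟨b, by linarith⟩
    have h2 : (q : ℤ) ∣ (u : ℤ) := by
      have hc : IsCoprime (q : ℤ) a := (Int.isCoprime_iff_gcd_eq_one.2 hco).symm
      exact hc.dvd_of_dvd_mul_left h1
    have h3 : q ∣ u := by exact_mod_cast h2
    have h4 : q ≤ u := Nat.le_of_dvd hu h3
    have h5 : (q : ℝ) ≤ (u : ℝ) := by exact_mod_cast h4
    linarith
  have hone : (1 : ℝ) ≤ |(a : ℝ) * u - b * q| := by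
    have h1 : (1 : ℤ) ≤ |(a : ℤ) * u - b * q| := Int.one_le_abs hne
    exact_mod_cast h1
  have hsub : (1 : ℝ) / (q * u) ≤ |(a : ℝ) / q - (b : ℝ) / u| := by
    have h1 : (a : ℝ) / q - (b : ℝ) / u = ((a : ℝ) * u - b * q) / (q * u) := by
      field_simp
    rw [h1, abs_div, abs_of_pos (mul_pos hq0 hu0)]
    exact div_le_div_of_nonneg_right hone (mul_pos hq0 hu0).le
  have htri : |(a : ℝ) / q - (b : ℝ) / u| ≤ |t - (b : ℝ) / u| + |t - (a : ℝ) / q| := by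
    have h1 : (a : ℝ) / q - (b : ℝ) / u = (t - (b : ℝ) / u) - (t - (a : ℝ) / q) := by ring
    rw [h1]
    exact abs_sub _ _
  have hlow : (1 : ℝ) / (2 * (q * u)) ≤ |t - (b : ℝ) / u| := by
    have h1 : (1 : ℝ) / q ^ 2 ≤ 1 / (2 * (q * u)) := by
      apply one_div_le_one_div_of_le (by positivity)
      nlinarith
    have h2 : (1 : ℝ) / (q * u) = 2 * (1 / (2 * (q * u))) := by
      field_simp
    linarith
  have hqN : (q : ℝ) ≤ (N : ℝ) ^ (k - 1) := by exact_mod_cast hqk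
  have hpow : (N : ℝ) ^ k = (N : ℝ) ^ (k - 1) * N := by
    rw [← pow_succ]
    congr 1
    omega
  have h1 : (N : ℝ) / 2 ≤ (u : ℝ) * ((N : ℝ) ^ k * (1 / (2 * (q * u)))) := by
    have h2 : (u : ℝ) * ((N : ℝ) ^ k * (1 / (2 * (q * u)))) = (N : ℝ) ^ k / (2 * q) := by
      field_simp
    rw [h2, hpow, le_div_iff₀ (by positivity)]
    have h3 : (N : ℝ) * q ≤ N * (N : ℝ) ^ (k - 1) := mul_le_mul_of_nonneg_left hqN hN0.le
    nlinarith
  have h4 : (u : ℝ) * ((N : ℝ) ^ k * (1 / (2 * (q * u)))) ≤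
      (u : ℝ) * ((N : ℝ) ^ k * |t - (b : ℝ) / (u : ℝ)|) :=
    mul_le_mul_of_nonneg_left (mul_le_mul_of_nonneg_left hlow hNk.le) hu0.le
  nlinarith

/-- Weyl sums of arbitrary real polynomials of degree at most `k`, denominators up to
`N ^ (k - 1)` -/
theorem main (k : ℕ) (hk : 3 ≤ k) (ε : ℝ) (hε : 0 < ε) :
    ∃ C : ℝ, 0 < C ∧ ∀ (N q : ℕ) (a : ℤ) (P : Polynomial ℝ), 1 ≤ N → 1 ≤ q → q ≤ N ^ (k - 1) →
      Int.gcd a q = 1 → P.natDegree ≤ k →
      |P.coeff k - (a : ℝ) / (q : ℝ)| ≤ 1 / (q : ℝ) ^ 2 →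
      ‖∑ n ∈ Finset.Icc (1 : ℤ) (N : ℤ), Pool.Agent.Helper69_Weyl.ee (P.eval (n : ℝ))‖ ≤
        C * (N : ℝ) ^ (1 + ε) * (1 / (q : ℝ) + 1 / (N : ℝ)) ^
          ((2 * (k : ℝ) - 1) / ((k : ℝ) * ((k : ℝ) + 1) ^ 2)) := by
  have hk3 : (3 : ℝ) ≤ (k : ℝ) := by exact_mod_cast hk
  set s : ℝ := (2 * (k : ℝ) - 1) / ((k : ℝ) * ((k : ℝ) + 1) ^ 2) with hs
  have hs0 : 0 ≤ s := by
    rw [hs]; apply div_nonneg
    · linarith
    · positivity
  have hs' : (1 + ((k : ℝ) - 2) / ((k : ℝ) + 1)) / ((k : ℝ) * ((k : ℝ) + 1)) = s := by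
    rw [hs]
    field_simp
    ring
  obtain ⟨C₁, hC₁, h₁⟩ := H7.fng_fin k hk ε hε
  obtain ⟨C₂, hC₂, h₂⟩ := H7.blfar_fin k hk ε hε
  refine ⟨C₁ + C₂, by positivity, ?_⟩
  intro N q a P hN hq hqk hco hdeg ht
  have hN0 : (0 : ℝ) < (N : ℝ) := by exact_mod_cast hN
  have hq0 : (0 : ℝ) < (q : ℝ) := by exact_mod_cast hq
  have hNε : (0 : ℝ) ≤ (N : ℝ) ^ (1 + ε) := by positivity
  rcases le_or_gt q N with hle | hgt
  · have h := h₁ N q a P hq hle hco hdeg ht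
    rw [hs'] at h
    refine le_trans h ?_
    have hp : (1 / (q : ℝ)) ^ s ≤ (1 / (q : ℝ) + 1 / (N : ℝ)) ^ s := by
      apply Real.rpow_le_rpow (by positivity) _ hs0
      have : (0 : ℝ) ≤ 1 / (N : ℝ) := by positivity
      linarith
    have hpn : (0 : ℝ) ≤ (1 / (q : ℝ)) ^ s := by positivity
    have h3 : C₁ * (N : ℝ) ^ (1 + ε) ≤ (C₁ + C₂) * (N : ℝ) ^ (1 + ε) :=
      mul_le_mul_of_nonneg_right (by linarith) hNε
    exact mul_le_mul h3 hp hpn (by positivity)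
  · have hfar : Far k N (P.coeff k) :=
      far_of k N q a (P.coeff k) (by omega) hN hgt.le hqk ht hco
    have h := h₂ N N P hN hdeg hfar le_rfl
    rw [hs'] at h
    refine le_trans h ?_
    have e1 : (N : ℝ) ^ (1 - s + ε) = (N : ℝ) ^ (1 + ε) * (1 / (N : ℝ)) ^ s := by
      rw [one_div, Real.inv_rpow hN0.le, ← Real.rpow_neg hN0.le, ← Real.rpow_add hN0]
      congr 1
      ring
    rw [e1, ← mul_assoc]
    have hp : (1 / (N : ℝ)) ^ s ≤ (1 / (q : ℝ) + 1 / (N : ℝ)) ^ s := by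
      apply Real.rpow_le_rpow (by positivity) _ hs0
      have : (0 : ℝ) ≤ 1 / (q : ℝ) := by positivity
      linarith
    have hpn : (0 : ℝ) ≤ (1 / (N : ℝ)) ^ s := by positivity
    have h3 : C₂ * (N : ℝ) ^ (1 + ε) ≤ (C₁ + C₂) * (N : ℝ) ^ (1 + ε) :=
      mul_le_mul_of_nonneg_right (by linarith) hNε
    exact mul_le_mul h3 hp hpn (by positivity)

end Pool.Agent.VM.H49GP
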